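import Mathlib
import Pool.Agent.Lib.MP_32dfd1_ag.Bel.Defs
import Pool.Agent.Lib.MP_32dfd1_ag.Bel.Main

set_option autoImplicit false

/-!
# Small cycles over `ℚ` on one explicit family of varieties control all cycles of abelian type

`T₀ : CycleData V₀` consists of the Chow rings (with rational coefficients) and the cohomology rings
`H^*(X(ℂ), ℚ)` of the smooth projective geometrically connected varieties over `ℚ`, `T : CycleData V`
of the same rings for the smooth projective connected varieties over `ℚ̄`.

By Belyi's theorem there is an explicit sequence `A_1, A_2, ...` of abelian varieties over `ℚ`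
such that every abelian variety over `ℚ` is an isogeny factor of some `A_k` (see `Tower`). Let
`V_(k,m)` be the quotient of `A_k^(2m+1) × B_m` by the group of even sign changes, `B_m` an explicit
complete intersection of diagonal quadrics on which this group acts freely. Then
`H^j(V_(k,m)) = 0` for odd `j < 2m` and for odd `j > 2 dim V_(k,m) - 2m`. The following are
equivalent:

* for all `k` and all `m ≥ 1` every homologically trivial cycle over `ℚ` of codimension `m` or of
  dimension `m - 1` on `V_(k,m)` is torsion,
* Q1 for the varieties `V_(k,m)` and cycles over `ℚ`,
* Q1 for all varieties over `ℚ̄` of abelian type (those whose motive is a summand of a sum of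
  Tate twists of motives of abelian varieties, for instance all varieties which are images of
  products of curves) and all their cycles,
* the Bloch-Beilinson conjecture `F^2 = 0` for these varieties,
* `[n]^*` is multiplication by `n^(2m-1)` on the homologically trivial cycles of codimension `m`
  on all abelian varieties over `ℚ̄`.

They imply that products of homologically trivial cycles on varieties over `ℚ̄` of abelian type
are torsion.
-/

namespace Pool.Agent.Results.MP_32dfd1_ag.BelyiTower

open CategoryTheory Pool.Agent.Lib.MP_32dfd1_ag.Cyc Pool.Agent.Lib.MP_32dfd1_ag.Bel

universe u v w u' v'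

theorem result {V₀ : Type u'} [Category.{v'} V₀] [CartesianMonoidalCategory V₀]
    [BraidedCategory V₀] {V : Type u} [Category.{v} V] [CartesianMonoidalCategory V]
    [BraidedCategory V] (T₀ : CycleData.{u', v', w} V₀) [T₀.Textbook]
    (T : CycleData.{u, v, w} V) [T.Textbook] (Φ : BaseChange T₀ T) (hW : WeilRestriction Φ)
    (S : Tower T₀ Φ) :
    [S.SmallCycles, S.Q1, Q1Ab T, OneStepAb T, Weights T].TFAE ∧ (Weights T → ProductsAb T) :=
  ⟨tower_tfae S hW, productsAb_of_weights⟩

end Pool.Agent.Results.MP_32dfd1_ag.BelyiTower
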