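import Mathlib
import Pool.Agent.Lib.MP_32dfd1_ag.Pur.HypDefs
import Pool.Agent.Lib.MP_32dfd1_ag.Pur.HullDefs
import Pool.Agent.Lib.MP_32dfd1_ag.Pur.MurreDefs
import Pool.Agent.Lib.MP_32dfd1_ag.Pur.HypHigh

set_option autoImplicit false

/-!
# Q1 for the smooth hypersurfaces of one degree

Let `K` be the class of the smooth hypersurfaces of degree `d ≥ 2` and dimension `≥ 1` over an
algebraic closure of the rational numbers (or any class of such hypersurfaces which is closed under
the join `{f(x) = 0}, {g(y) = 0} ↦ {f(x) + g(y) = 0}`), and let `N` be any integer.  The following
are equivalent.

* Q1 for the hypersurfaces in `K` of dimension at least `N`, and all `m`.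
* Q1 for `K`.
* Q1 for all varieties whose motives are generated by `K` (direct summands of sums of Tate twists
  of motives of products of members of `K`).
* The one-step form of the conjectures of Bloch and Beilinson for these varieties: a correspondence
  which is zero on `H^(2m-1)` is zero on the homologically trivial cycle classes of codimension `m`.
* The conjectures of Murre for these varieties, with a filtration of length one: there are orthogonal
  projectors which lift the Kunneth components of the diagonal and act as zero on
  `CH^m` for `j ≠ 2m, 2m - 1`, and homologically trivial correspondences act as zero on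
  homologically trivial cycle classes.

For example, Q1 for the smooth plane curves of degree `d` is empty, but Q1 for the hypersurfaces of
degree `d` and large dimension implies that the Albanese kernel of the product of two such curves is
torsion.

Proof.  The primitive projector `π_X = Δ - (1/d) ∑ h^k × h^(n-k)` acts as zero on `H^j(X)` for
`j ≠ n` and, by Q1, on homologically trivial cycles of codimension `m`, `2m - 1 ≠ n`.  The external
product `π_X × π_X'` factors (up to a Tate twist) through `π_X''`, `X''` the join.  This is proved
here with the union of the lines which connect `X` and `X'` in `X''`, from the formula for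
blow-ups.  So all varieties generated by `K` are pure: the diagonal is a sum of correspondences
which factor through test objects of weight `w` both from above and from below.
-/

namespace Pool.Agent.Results.MP_32dfd1_ag.HypersurfacesOneDegree

open CategoryTheory Pool.Agent.Lib.MP_32dfd1_ag.Cyc Pool.Agent.Lib.MP_32dfd1_ag.Pur

universe u v w

theorem result {V : Type u} [Category.{v} V] [CartesianMonoidalCategory V]
    (T : CycleData.{u, v, w} V) [T.Textbook] (hC : ∀ (X : V) (x y : T.CH.R X), x * y = y * x)
    (d : ℕ) (hd : d ≠ 0) (K : V → Prop) (S : HypersurfaceClass T d K) (hP : PrimitiveCycle T S)
    (N : ℤ) :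
    [Q1On T (DimAtLeast T K N), Q1On T K, Q1On T (Hull T K), OneStepOn T (Hull T K),
      FullMurreOn T (Hull T K) ∧ HomCorrOn T (Hull T K)].TFAE :=
  Hyp.high_tfae hC hd S hP N

end Pool.Agent.Results.MP_32dfd1_ag.HypersurfacesOneDegree
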