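import Mathlib
import Pool.Agent.Lib.MP_32dfd1_ag.Par.Defs
import Pool.Agent.Lib.MP_32dfd1_ag.Par.Main
import Pool.Agent.Lib.MP_32dfd1_ag.Par.Full

set_option autoImplicit false

/-!
# Q1, varieties without odd cohomology, and parity involutions

For smooth projective varieties over `ℚ̄` question Q1, for all `(X, m)`, is equivalent to the
conjunction of two statements:

* `EvenCase`: every homologically trivial cycle on a variety without odd cohomology is torsion;
* `RestrictionInjective`: if `H^(2m-1)(X) = 0` and `2m ≤ dim X`, then restriction to smooth complete
  intersections of dimension `2m` is injective on homologically trivial cycles of codimension `m`,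
  up to torsion.

The following are equivalent:

* Q1 for `m > dim X / 2`: if `H^(2m-1)(X) = 0` then homologically trivial cycles of codimension `m`
  are torsion;
* the same if `H^j(X) = 0` for all odd `j ≥ 2m - 1`;
* `EvenCase`;
* `EvenCase` only for cycles of codimension `m` and varieties of dimension `2m - 2`;
* the equivariant version, for the invariants of a finite group;
* every involution that acts as `(-1)^j` on `H^j(X)` for all `j` acts as `-1` on all
  homologically trivial cycles, up to torsion.

So a question about varieties with `H^(2m-1)(X) = 0` contains a statement about the homologically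
trivial cycles of all abelian varieties, hyperelliptic curves, K3 surfaces, double covers of
projective spaces, and their products, where `H^(2m-1)(X)` is large.  It implies what
Bloch and Beilinson predict for them: homologically trivial correspondences act as zero on
homologically trivial cycles (`F^2 = 0`), and products of homologically trivial cycles are torsion.

* Reduction to varieties without odd cohomology: a homologically trivial `p`-cycle on `X`,
  `p = dim X - m`, lives on a smooth complete intersection `Z` of dimension `2p + 2`, the homology
  of `Z` in degree at most `2p + 1` is that of `X`, so if it is zero in odd degrees then by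
  duality `Z` has no odd cohomology.
* Equivariant version: `G` acts freely on a complete intersection `B` of large dimension; the
  quotient `Y` of `X × B` is smooth, and `H_j(Y) = ⊕ H_(j-2i)(X)^G` for `j < dim B`.
* Parity: apply this to the group of order two and to `z + i^* z`.
* Products: if `z` and `z'` are homologically trivial then `i^* (z z') = (-z)(-z') = z z'`, but
  `z z'` is homologically trivial, so `i^* (z z') = - z z'`.
* All `(X, m)`: if `2m ≤ dim X` and `H^(2m-1)(X) = 0` then `H^j(X) = 0` for all odd `j ≤ 2m - 1`, so a
  smooth complete intersection of dimension `2m` has no odd cohomology.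
-/

namespace Pool.Agent.Results.MP_32dfd1_ag.ParityPrinciple

open CategoryTheory Pool.Agent.Lib.MP_32dfd1_ag.Cyc Pool.Agent.Lib.MP_32dfd1_ag.Par

universe u v w

theorem result {V : Type u} [Category.{v} V] [CartesianMonoidalCategory V]
    (T : CycleData.{u, v, w} V) [T.Textbook] (hH : HardLefschetz T) (hL : LefschetzBertini T)
    (hG : GodeauxSerre T) (Sec : (Y X : V) → (Y ⟶ X) → Prop) (hS : Sections T Sec) :
    (Q1Full T ↔ EvenCase T ∧ RestrictionInjective T Sec) ∧
      [Q1 T, Q1Odd T, EvenCase T, EvenMiddle T, Equivariant T, ParityMinus T].TFAE ∧
      (EvenCase T → CorrespondencesVanish T ∧ ProductsVanish T) := by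
  have h := tfae hH hL hG
  refine ⟨full_iff hH hL hG hS, h, fun hE => ?_⟩
  have hP : ParityMinus T := (h.out 2 5).mp hE
  exact ⟨correspondencesVanish hP, productsVanish (correspondencesVanish hP)⟩

end Pool.Agent.Results.MP_32dfd1_ag.ParityPrinciple
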