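import Mathlib
import Pool.Agent.Lib.MP_32dfd1_ag.Pur.PieceDefs
import Pool.Agent.Lib.MP_32dfd1_ag.Pur.Gen

set_option autoImplicit false

/-!
# Q1 and the conjectures of Murre, Bloch and Beilinson for abelian varieties, surfaces, double
covers and hypersurfaces

`T : CycleData V` consists of the Chow rings with rational coefficients and the cohomology rings
`H^*(X(ℂ), ℚ)` of the (irreducible) smooth projective varieties over `ℚ̄ ⊆ ℂ`; `CycleData.Textbook`
are their textbook properties (functoriality, projection formula, base change, Kunneth
formula, Poincare duality).

Let `B` be the class of all abelian varieties, surfaces, double covers of projective spaces with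
smooth branch divisor, and smooth hypersurfaces in projective spaces, and `K = Hull T B` the
class of the varieties whose motive is a summand of a sum of Tate twists of motives of
products of members of `B`; for instance products of curves, Hilbert schemes of points on
surfaces, Fano varieties of lines on cubic hypersurfaces.  Then `Piece T K X` for `X` in `B`, and
`GodeauxSerreOn T K` holds.  The following are equivalent:

* Q1 for the varieties of the class `K`,
* the conjectures of Bloch and Beilinson for `K` in the form `F^2 = 0`: a correspondence which is
  zero on `H^(2m-1)(X)` is zero on the homologically trivial cycles of codimension `m`,
* the varieties of `K` have Murre decompositions for which `CH^m` has only the weights `2m`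
  and `2m - 1`, and homologically trivial correspondences act as zero on homologically trivial
  cycles,

and they imply that exterior products of homologically trivial cycles are zero.

Q1 is a statement on varieties with `H^(2m-1)(X) = 0` only.  The proof: call `(Y, G, χ)` with a
finite group `G` of exponent two a good test if the odd cohomology of `Y` has no `G`-invariants and
the `χ`-part of `H^j(Y)` is zero for `j` outside of an interval; Q1 for the quotients
`(Y × C) / ker χ` (Godeaux and Serre) shows that the `χ`-part of the homologically trivial cycles of
codimension `m` on `Y` is zero for `2m - 1` outside of the interval.  The diagonal of a piece
is a sum of correspondences which factor through good tests in two ways, such that the first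
one bounds the weights from below and the second one from above.  This is stable under products
and direct summands, and it implies everything.
-/

namespace Pool.Agent.Results.MP_32dfd1_ag.PurityEquivalence

open CategoryTheory Pool.Agent.Lib.MP_32dfd1_ag.Cyc Pool.Agent.Lib.MP_32dfd1_ag.Pur

universe u v w

/-- Let `B` be a class of varieties such that its members are pieces (abelian varieties, surfaces,
double covers, hypersurfaces) with respect to the hull `Hull T B` of `B`, and assume the
construction of Godeaux and Serre for this hull.  Then Q1 for the hull, the one-step form of the
conjectures of Bloch and Beilinson for the hull, and the conjectures of Murre with homologically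
trivial correspondences acting as zero are equivalent, and they imply that exterior products of
homologically trivial cycles vanish. -/
theorem result {V : Type u} [Category.{v} V] [CartesianMonoidalCategory V] [BraidedCategory V]
    (T : CycleData.{u, v, w} V) [T.Textbook] (hC : ∀ (X : V) (x y : T.CH.R X), x * y = y * x)
    (hP : Points T) (B : V → Prop) (hB : ∀ X, B X → Piece T (Hull T B) X)
    (hG : GodeauxSerreOn T (Hull T B)) :
    [Q1On T (Hull T B), OneStepOn T (Hull T B),
      FullMurreOn T (Hull T B) ∧ HomCorrOn T (Hull T B)].TFAE ∧
    (Q1On T (Hull T B) → ExteriorVanishOn T (Hull T B)) :=
  pieces_tfae hC hP hB hG

end Pool.Agent.Results.MP_32dfd1_ag.PurityEquivalence
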